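import Pool.Agent.Y504.CO.Gen

/-!
# Stable diffeomorphisms with countable nonperiodic recurrence satisfy Axiom A

Let `N` be a closed smooth manifold, `1 ≤ r ≤ ∞`, and let `F ∈ Diff^r(N)` be structurally stable or
`Ω`-stable.

1. If at most countably many recurrent points of `F` are not periodic (for instance if all recurrent
   points are periodic, or if `Ω(F)` is countable), then `Ω(F)` is finite and consists of hyperbolic
   periodic points, so `F` satisfies Axiom A.
2. In general, every nonempty relatively open subset of `Ω(F) ∖ closure(Per(F))` is uncountable. So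
   periodic points are dense in `Ω(F)` if this difference is countable, and isolated points of `Ω(F)`
   are periodic.

Project CO. Proof plan: helper504; Lean: helpers 3, 38, 67, 96, 117, 284, 286, 306, 329, 333, 417,
504, 600, 614, 739, 810, 832, 863, 921, 929, 948, 987 (`Pool/Agent/Y*/CO`). Definitions of `DiffM`,
`strongTop`, `Omega`, `OmegaStable`, `Per`: `Pool/Agent/H718R2/G0.lean`,
`Pool/Agent/TH80/OMS/Defs.lean`, `SymDefs.lean`.
-/

set_option autoImplicit false

open scoped Manifold ContDiff Topology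

universe u

namespace Pool.Agent.Results.MP_4a0782_an.CountableRecurrence

open Pool.Agent.H718R2.G Pool.Agent.TH80.OMS

/-- `F` is structurally stable in `Diff^r(N)`: all `G` in a neighbourhood of `F` are topologically
conjugate to `F`. -/
def StructStable (n : ℕ) (N : Type u) [TopologicalSpace N] [ChartedSpace (V n) N] (r : ℕ∞)
    (F : DiffM n N r) : Prop :=
  ∃ U : Set (DiffM n N r), IsOpen[strongTop n N r] U ∧ F ∈ U ∧
    ∀ G ∈ U, ∃ h : N ≃ₜ N, ∀ x, h (F x) = G (h x)

/-- The recurrent points of `F`: every neighbourhood of `x` contains some `F^k(x)`, `k ≥ 1`. -/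
def Rec {N : Type u} [TopologicalSpace N] (F : N → N) : Set N :=
  {x | ∀ W ∈ 𝓝 x, ∃ k : ℕ, 1 ≤ k ∧ F^[k] x ∈ W}

/-- `p` is a hyperbolic periodic point of `F`: `F^m(p) = p` for some `m ≥ 1`, and for every such `m`
and every chart `ψ` at `p` no eigenvalue of the derivative `D` of `F^m` at `p` has modulus one. -/
def IsHyperbolicPer (n : ℕ) {N : Type u} [TopologicalSpace N] [ChartedSpace (V n) N]
    (F : N → N) (p : N) : Prop :=
  p ∈ Per F ∧ ∀ m : ℕ, 1 ≤ m → F^[m] p = p → ∀ ψ ∈ IsManifold.maximalAtlas (𝓡 n) ∞ N,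
    p ∈ ψ.source → ∃ D : V n →L[ℝ] V n, HasFDerivAt (fun v => ψ (F^[m] (ψ.symm v))) D (ψ p) ∧
      ∀ μ : ℂ, ((LinearMap.charpoly (D : V n →ₗ[ℝ] V n)).map (algebraMap ℝ ℂ)).IsRoot μ → ‖μ‖ ≠ 1

theorem result (n : ℕ) (N : Type u) [TopologicalSpace N] [T2Space N] [CompactSpace N]
    [ChartedSpace (V n) N] [IsManifold (𝓡 n) ∞ N] (r : ℕ∞) (hr : 1 ≤ r) (F : DiffM n N r)
    (hF : StructStable n N r F ∨ OmegaStable n N r F) :
    ((Rec F \ Per F).Countable → (Omega F).Finite ∧ ∀ p ∈ Omega F, IsHyperbolicPer n F p) ∧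
    (∀ O : Set N, IsOpen O → (O ∩ (Omega F \ closure (Per F))).Nonempty →
      ¬ (O ∩ (Omega F \ closure (Per F))).Countable) := by
  have h : OmegaStable n N r F := by
    rcases hF with ⟨U, hU, hFU, h⟩ | h
    · refine ⟨U, hU, hFU, fun G hG => ?_⟩
      obtain ⟨e, he⟩ := h G hG
      exact Pool.Agent.Y504.CO.omegaConj_of_conj e he
    · exact h
  refine ⟨fun hR => ?_, fun O hO hne => Pool.Agent.Y504.CO.Gen.stable_bad hr h O hO hne⟩
  have h1 := Pool.Agent.Y504.CO.Gen.stable hr h hR
  exact ⟨h1.1.1, h1.2⟩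

end Pool.Agent.Results.MP_4a0782_an.CountableRecurrence
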