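import Pool.Agent.Y318.LF.Stab

set_option autoImplicit false

/-!
# Structurally stable diffeomorphisms preserving linear foliations

`PreservesFlag r f V`: `f` is a `C^r` diffeomorphism of `𝕋^d` isotopic to the identity which
preserves the foliations of `𝕋^d` by the translates of `V 1 ⊂ V 2 ⊂ … ⊂ V (d - 1)`, linear
subspaces of `ℝ^d` of dimensions `1, 2, …, d - 1` with arbitrary (irrational) slopes.

Library: helper637 and team (rational case), helper728 (hyperbolicity); for this extension
helpers 318, 210, 301, 785, 925.
-/

namespace Pool.Agent.Results.MP_4a0782_an.LinearFlags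

open Pool.Agent.H728R2.OS Pool.Agent.Y318.LF

/-- Let `f` be a `C^r` diffeomorphism of `𝕋^d`, `1 ≤ r ≤ ∞`, which is isotopic to the identity and
preserves a complete flag `V` of linear foliations. If `f` is structurally stable, or `Ω`-stable,
in the space of all `C^r` diffeomorphisms, then `V` is rational and `f` satisfies Axiom A. (If some
`V n` is irrational then `f` is neither structurally stable nor `Ω`-stable.) -/
theorem result (d : ℕ) (r : ℕ∞) (hr : 1 ≤ r) (f : Torus d ≃ₜ Torus d)
    (V : ℕ → Submodule ℝ (Fin d → ℝ)) (hf : PreservesFlag r f V)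
    (hs : StructStable toTorus r f ∨ OmegaStable toTorus r f) :
    (∀ n, IsRat (V n)) ∧ AxiomA toTorus f := by
  have h := stab Pool.Agent.Y210.LF.prim Pool.Agent.Y301.LF.t kill adapt hr hf
    (classStable_of_omegaStable (hs.elim (fun h => h.omegaStable) id))
  exact ⟨h.1, h.2.2.1⟩

end Pool.Agent.Results.MP_4a0782_an.LinearFlags
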